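import Mathlib

/-!
# `S(X)` can be a `σ`-space without being an `ℵ`-space (MP_81fb9f_gt)

`X` is the Mrówka–Isbell space `Ψ(𝒜)` of the almost disjoint family of branches of the binary tree.
-/

namespace Pool.Agent.Results.MP_81fb9f_gt.SigmaNotAleph

open Set Topology Filter

universe u

section Defs

variable (X : Type u) [TopologicalSpace X]

/-- `C` is a convergent sequence of `X` (with its limit). -/
def IsConvSeq (C : Set X) : Prop :=
  ∃ (x : ℕ → X) (a : X), Tendsto x atTop (𝓝 a) ∧ C = insert a (range x)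

/-- `S(X)`: the nonempty closed subsets of `X` that are unions of finitely many convergent
sequences of `X`. -/
def SX : Type u := {S : Set X // S.Nonempty ∧ IsClosed S ∧
  ∃ 𝓕 : Set (Set X), 𝓕.Finite ∧ (∀ C ∈ 𝓕, IsConvSeq X C) ∧ S = ⋃₀ 𝓕}

variable {X}

/-- `⟨U₁, …, U_r⟩` for a finite family `𝒰 = {U₁, …, U_r}`. -/
def vbox (𝒰 : Set (Set X)) : Set (SX X) := {S | S.1 ⊆ ⋃₀ 𝒰 ∧ ∀ U ∈ 𝒰, (S.1 ∩ U).Nonempty}

variable (X) in
/-- The Vietoris topology on `S(X)`. -/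
instance vietoris : TopologicalSpace (SX X) :=
  TopologicalSpace.generateFrom
    {𝒲 | ∃ 𝒰 : Set (Set X), 𝒰.Finite ∧ 𝒰.Nonempty ∧ (∀ U ∈ 𝒰, IsOpen U) ∧ 𝒲 = vbox 𝒰}

/-- `𝒢` is a network -/
def IsNetwork (𝒢 : Set (Set X)) : Prop :=
  ∀ (y : X) (U : Set X), IsOpen U → y ∈ U → ∃ P ∈ 𝒢, y ∈ P ∧ P ⊆ U

/-- `𝒢` is a `k`-network -/
def IsKNetwork (𝒢 : Set (Set X)) : Prop :=
  ∀ (K U : Set X), IsCompact K → IsOpen U → K ⊆ U →
    ∃ 𝒬 : Set (Set X), 𝒬 ⊆ 𝒢 ∧ 𝒬.Finite ∧ K ⊆ ⋃₀ 𝒬 ∧ ⋃₀ 𝒬 ⊆ U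

/-- `𝒢` is a `σ`-locally finite family of sets -/
def IsSigmaLocallyFinite (𝒢 : Set (Set X)) : Prop :=
  ∃ 𝒬 : ℕ → Set (Set X), (∀ n, LocallyFinite (fun P : 𝒬 n => (P : Set X))) ∧ 𝒢 = ⋃ n, 𝒬 n

variable (X) in
/-- `σ`-space: regular (`T₃`) with a `σ`-locally finite network -/
def IsSigmaSpace : Prop := T3Space X ∧ ∃ 𝒢 : Set (Set X), IsSigmaLocallyFinite 𝒢 ∧ IsNetwork 𝒢

variable (X) in
/-- `ℵ`-space: regular (`T₃`) with a `σ`-locally finite `k`-network -/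
def IsAlephSpace : Prop := T3Space X ∧ ∃ 𝒢 : Set (Set X), IsSigmaLocallyFinite 𝒢 ∧ IsKNetwork 𝒢

end Defs

/-! ### The almost disjoint family -/

/-- the branch of `x` in the binary tree, coded by natural numbers -/
def br (x : ℕ → Bool) : Set ℕ := range fun n => Encodable.encode ((List.range n).map x)

theorem code_inj (x y : ℕ → Bool) (m n : ℕ)
    (h : Encodable.encode ((List.range m).map x) = Encodable.encode ((List.range n).map y)) :
    m = n ∧ ∀ k < m, x k = y k := by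
  have h1 := Encodable.encode_injective h
  have h2 : m = n := by simpa using congrArg List.length h1
  subst h2
  refine ⟨rfl, fun k hk => ?_⟩
  have h3 := List.map_inj_left.1 h1 k (List.mem_range.2 hk)
  exact h3

theorem br_infinite (x : ℕ → Bool) : (br x).Infinite :=
  infinite_range_of_injective fun m n h => (code_inj x x m n h).1

theorem br_ad {x y : ℕ → Bool} (hxy : x ≠ y) : (br x ∩ br y).Finite := by
  obtain ⟨k, hk⟩ : ∃ k, x k ≠ y k := by
    by_contra h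
    push Not at h
    exact hxy (funext h)
  refine ((Set.finite_Iic k).image fun n => Encodable.encode ((List.range n).map x)).subset ?_
  rintro _ ⟨⟨m, rfl⟩, ⟨n, hn⟩⟩
  refine ⟨m, ?_, rfl⟩
  by_contra h
  rw [Set.mem_Iic, not_le] at h
  obtain ⟨h1, h2⟩ := code_inj x y m n hn.symm
  exact hk (h2 k h)

/-! ### The space `Ψ` -/

/-- the points of `Ψ`: natural numbers and branches -/
inductive Psi : Type
  | nat : ℕ → Psi
  | pt : (ℕ → Bool) → Psi

open Psi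

instance : TopologicalSpace Psi where
  IsOpen U := ∀ i, pt i ∈ U → {k | k ∈ br i ∧ nat k ∉ U}.Finite
  isOpen_univ := fun i _ => by simp
  isOpen_inter := by
    intro U V hU hV i hi
    refine ((hU i hi.1).union (hV i hi.2)).subset ?_
    rintro k ⟨hk, hk'⟩
    by_cases h : nat k ∈ U
    · exact Or.inr ⟨hk, fun h' => hk' ⟨h, h'⟩⟩
    · exact Or.inl ⟨hk, h⟩
  isOpen_sUnion := by
    rintro 𝒮 h𝒮 i ⟨U, hU, hi⟩
    refine (h𝒮 U hU i hi).subset ?_
    rintro k ⟨hk, hk'⟩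
    exact ⟨hk, fun h => hk' ⟨U, hU, h⟩⟩

theorem isOpen_iff (U : Set Psi) : IsOpen U ↔ ∀ i, pt i ∈ U → {k | k ∈ br i ∧ nat k ∉ U}.Finite :=
  Iff.rfl

/-- the basic neighbourhood `{i} ∪ (A_i ∖ n)` of the point `i` -/
def V (n : ℕ) (i : ℕ → Bool) : Set Psi := insert (pt i) (nat '' {k | k ∈ br i ∧ n ≤ k})

theorem pt_mem_V {n : ℕ} {i j : ℕ → Bool} : pt j ∈ V n i ↔ j = i := by
  simp [V]

theorem nat_mem_V {n k : ℕ} {i : ℕ → Bool} : nat k ∈ V n i ↔ k ∈ br i ∧ n ≤ k := by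
  simp [V]

theorem V_mono {n m : ℕ} (h : n ≤ m) (i : ℕ → Bool) : V m i ⊆ V n i := by
  rintro (k | j) hx
  · rw [nat_mem_V] at hx ⊢
    exact ⟨hx.1, h.trans hx.2⟩
  · rw [pt_mem_V] at hx ⊢
    exact hx

theorem isClopen_nat (B : Set ℕ) (hB : B.Finite) : IsClopen (nat '' B) := by
  constructor
  · rw [← isOpen_compl_iff, isOpen_iff]
    intro i _
    refine hB.subset ?_
    rintro k ⟨-, hk⟩
    rw [notMem_compl_iff] at hk
    obtain ⟨j, hj, hjk⟩ := hk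
    cases hjk
    exact hj
  · rw [isOpen_iff]
    rintro i ⟨k, -, hk⟩
    cases hk

theorem isClopen_V (n : ℕ) (i : ℕ → Bool) : IsClopen (V n i) := by
  constructor
  · rw [← isOpen_compl_iff, isOpen_iff]
    intro j hj
    have hji : j ≠ i := by
      intro h
      exact hj (pt_mem_V.2 h)
    refine (br_ad hji).subset ?_
    rintro k ⟨hk, hk'⟩
    rw [notMem_compl_iff] at hk'
    exact ⟨hk, (nat_mem_V.1 hk').1⟩
  · rw [isOpen_iff]
    intro j hj
    rw [pt_mem_V] at hj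
    subst hj
    refine (Set.finite_Iio n).subset ?_
    rintro k ⟨hk, hk'⟩
    by_contra h
    exact hk' (nat_mem_V.2 ⟨hk, not_lt.1 h⟩)

theorem exists_clopen {x y : Psi} (hxy : x ≠ y) : ∃ C : Set Psi, IsClopen C ∧ x ∈ C ∧ y ∉ C := by
  rcases x with k | i
  · refine ⟨nat '' {k}, isClopen_nat _ (Set.finite_singleton k), ⟨k, rfl, rfl⟩, ?_⟩
    rintro ⟨j, hj, rfl⟩
    cases hj
    exact hxy rfl
  · rcases y with k | j
    · refine ⟨V (k + 1) i, isClopen_V _ _, pt_mem_V.2 rfl, ?_⟩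
      rw [nat_mem_V]
      rintro ⟨-, h⟩
      omega
    · refine ⟨V 0 i, isClopen_V _ _, pt_mem_V.2 rfl, ?_⟩
      rw [pt_mem_V]
      intro h
      exact hxy (by rw [h])

instance : T2Space Psi := by
  refine ⟨fun x y hxy => ?_⟩
  obtain ⟨C, hC, hx, hy⟩ := exists_clopen hxy
  exact ⟨C, Cᶜ, hC.isOpen, hC.compl.isOpen, hx, hy, disjoint_compl_right⟩

theorem isCompact_V (n : ℕ) (i : ℕ → Bool) : IsCompact (V n i) := by
  rw [isCompact_iff_finite_subcover]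
  intro ι U hU hV
  obtain ⟨j, hj⟩ := mem_iUnion.1 (hV (pt_mem_V.2 rfl : pt i ∈ V n i))
  have hfin := (isOpen_iff _).1 (hU j) i hj
  -- cover the finite rest
  have hfin2 : (V n i \ U j).Finite := by
    refine (hfin.image nat).subset ?_
    rintro (k | l) ⟨hx, hx'⟩
    · exact ⟨k, ⟨(nat_mem_V.1 hx).1, hx'⟩, rfl⟩
    · rw [pt_mem_V] at hx
      subst hx
      exact absurd hj hx'
  obtain ⟨t, ht⟩ := hfin2.isCompact.elim_finite_subcover U hU (sdiff_subset.trans hV)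
  classical
  refine ⟨insert j t, ?_⟩
  intro x hx
  by_cases hxj : x ∈ U j
  · exact mem_iUnion₂.2 ⟨j, Finset.mem_insert_self _ _, hxj⟩
  · obtain ⟨l, hl, hxl⟩ := mem_iUnion₂.1 (ht ⟨hx, hxj⟩)
    exact mem_iUnion₂.2 ⟨l, Finset.mem_insert_of_mem hl, hxl⟩

/-! ### Structure of the elements of `S(Ψ)` -/

/-- the set of branches in `S` -/
def sset (S : Set Psi) : Set (ℕ → Bool) := {i | pt i ∈ S}

theorem convSeq_structure {C : Set Psi} (hC : IsConvSeq Psi C) :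
    (sset C).Finite ∧ (C \ ⋃ i ∈ sset C, V 0 i).Finite := by
  obtain ⟨x, a, hx, rfl⟩ := hC
  -- all but finitely many terms lie in a neighbourhood `W` of `a`
  have key : ∀ W : Set Psi, IsOpen W → a ∈ W → (insert a (range x) \ W).Finite := by
    intro W hW haW
    have h1 : ∀ᶠ n in atTop, x n ∈ W := hx (hW.mem_nhds haW)
    obtain ⟨N, hN⟩ := eventually_atTop.1 h1
    refine ((Set.finite_Iio N).image x).subset ?_
    rintro y ⟨hy | ⟨n, rfl⟩, hy'⟩
    · rw [hy] at hy'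
      exact absurd haW hy'
    · refine ⟨n, ?_, rfl⟩
      by_contra h
      exact hy' (hN n (not_lt.1 h))
  rcases a with k | i
  · have h1 := key (nat '' {k}) (isClopen_nat _ (Set.finite_singleton k)).isOpen ⟨k, rfl, rfl⟩
    have h2 : (insert (nat k) (range x)).Finite := by
      refine (h1.union ((Set.finite_singleton k).image nat)).subset ?_
      intro y hy
      by_cases h : y ∈ nat '' {k}
      · exact Or.inr h
      · exact Or.inl ⟨hy, h⟩
    refine ⟨?_, h2.subset sdiff_subset⟩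
    refine Set.Finite.of_finite_image (f := pt) (h2.subset ?_) (fun a _ b _ h => by cases h; rfl)
    rintro _ ⟨j, hj, rfl⟩
    exact hj
  · have h1 := key (V 0 i) (isClopen_V 0 i).isOpen (pt_mem_V.2 rfl)
    constructor
    · have h2 : (sset (insert (pt i) (range x)) \ {i}).Finite := by
        refine Set.Finite.of_finite_image (f := pt) (h1.subset ?_)
          (fun a _ b _ h => by cases h; rfl)
        rintro _ ⟨j, ⟨hj, hji⟩, rfl⟩
        exact ⟨hj, fun h => hji (pt_mem_V.1 h)⟩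
      refine (h2.union (Set.finite_singleton i)).subset ?_
      intro j hj
      by_cases h : j = i
      · exact Or.inr h
      · exact Or.inl ⟨hj, h⟩
    · refine h1.subset (sdiff_subset_sdiff_right ?_)
      intro y hy
      exact mem_iUnion₂.2 ⟨i, mem_insert _ _, hy⟩

theorem structure_SX (S : SX Psi) :
    (sset S.1).Finite ∧ (S.1 \ ⋃ i ∈ sset S.1, V 0 i).Finite := by
  obtain ⟨-, -, 𝓕, h𝓕, hC, hS⟩ := S.2
  constructor
  · have h1 : sset S.1 = ⋃ C ∈ 𝓕, sset C := by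
      ext i
      rw [hS]
      simp [sset]
    rw [h1]
    exact h𝓕.biUnion fun C h => (convSeq_structure (hC C h)).1
  · have h1 : (⋃ C ∈ 𝓕, (C \ ⋃ i ∈ sset C, V 0 i)).Finite :=
      h𝓕.biUnion fun C h => (convSeq_structure (hC C h)).2
    refine h1.subset ?_
    rintro y ⟨hy, hy'⟩
    have hy2 : y ∈ ⋃₀ 𝓕 := hS ▸ hy
    obtain ⟨C, hC𝓕, hyC⟩ := hy2
    refine mem_iUnion₂.2 ⟨C, hC𝓕, hyC, ?_⟩
    intro h
    obtain ⟨i, hi, hyi⟩ := mem_iUnion₂.1 h
    refine hy' (mem_iUnion₂.2 ⟨i, ?_, hyi⟩)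
    show pt i ∈ S.1
    rw [hS]
    exact ⟨C, hC𝓕, hi⟩

/-! ### Local structure of `S(Ψ)` -/

/-- the clopen set `U_n(S)` -/
def Uset (n : ℕ) (S : Set Psi) : Set Psi :=
  (nat '' {k | k < n ∧ nat k ∈ S}) ∪ ⋃ i ∈ sset S, V n i

theorem isClopen_Uset (n : ℕ) (S : SX Psi) : IsClopen (Uset n S.1) := by
  refine (isClopen_nat _ ((Set.finite_Iio n).subset fun k hk => hk.1)).union ?_
  exact (structure_SX S).1.isClopen_biUnion fun i _ => isClopen_V n i

/-- from some `n` on, `S ⊆ U_n(S)`. -/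
theorem exists_subset_Uset (S : SX Psi) : ∃ n₀, ∀ n ≥ n₀, S.1 ⊆ Uset n S.1 := by
  have hfin := (structure_SX S).2
  have hfin' : {k | nat k ∈ S.1 \ ⋃ i ∈ sset S.1, V 0 i}.Finite :=
    Set.Finite.of_finite_image (f := nat) (hfin.subset (by rintro _ ⟨k, hk, rfl⟩; exact hk))
      (fun a _ b _ h => by cases h; rfl)
  obtain ⟨N, hN⟩ := hfin'.bddAbove
  refine ⟨N + 1, fun n hn x hx => ?_⟩
  rcases x with k | i
  · by_cases hk : k < n
    · exact Or.inl ⟨k, ⟨hk, hx⟩, rfl⟩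
    · right
      by_cases h : nat k ∈ ⋃ i ∈ sset S.1, V 0 i
      · obtain ⟨i, hi, hki⟩ := mem_iUnion₂.1 h
        exact mem_iUnion₂.2 ⟨i, hi, nat_mem_V.2 ⟨(nat_mem_V.1 hki).1, not_lt.1 hk⟩⟩
      · have : k ≤ N := hN ⟨hx, h⟩
        omega
  · exact Or.inr (mem_iUnion₂.2 ⟨i, hx, pt_mem_V.2 rfl⟩)

/-- the clopen neighbourhoods of `S` -/
def Cset (n : ℕ) (S : SX Psi) : Set (SX Psi) :=
  {T | T.1 ⊆ Uset n S.1} ∩ (⋂ k ∈ {k | k < n ∧ nat k ∈ S.1}, {T | (T.1 ∩ {nat k}).Nonempty}) ∩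
    ⋂ i ∈ sset S.1, {T | (T.1 ∩ V n i).Nonempty}

theorem isOpen_sub {U : Set Psi} (hU : IsOpen U) : IsOpen {T : SX Psi | T.1 ⊆ U} := by
  have h : {T : SX Psi | T.1 ⊆ U} = vbox {U} := by
    ext T
    simp only [vbox, sUnion_singleton, mem_singleton_iff, forall_eq, Set.mem_ofPred_eq]
    constructor
    · intro h
      refine ⟨h, ?_⟩
      rw [inter_eq_left.2 h]
      exact T.2.1
    · exact fun h => h.1
  rw [h]
  exact TopologicalSpace.isOpen_generateFrom_of_mem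
    ⟨{U}, Set.finite_singleton U, singleton_nonempty U, by simpa using hU, rfl⟩

theorem isOpen_meet {U : Set Psi} (hU : IsOpen U) : IsOpen {T : SX Psi | (T.1 ∩ U).Nonempty} := by
  have h : {T : SX Psi | (T.1 ∩ U).Nonempty} = vbox {univ, U} := by
    ext T
    simp only [vbox, Set.mem_ofPred_eq, mem_insert_iff, mem_singleton_iff, forall_eq_or_imp,
      forall_eq, inter_univ, sUnion_insert, sUnion_singleton, univ_union, subset_univ, true_and]
    exact ⟨fun h => ⟨T.2.1, h⟩, fun h => h.2⟩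
  rw [h]
  refine TopologicalSpace.isOpen_generateFrom_of_mem
    ⟨{univ, U}, (Set.toFinite _), ⟨univ, mem_insert _ _⟩, ?_, rfl⟩
  rintro W (rfl | rfl)
  · exact isOpen_univ
  · exact hU

theorem isClopen_sub {U : Set Psi} (hU : IsClopen U) : IsClopen {T : SX Psi | T.1 ⊆ U} := by
  refine ⟨?_, isOpen_sub hU.isOpen⟩
  rw [← isOpen_compl_iff]
  have h : {T : SX Psi | T.1 ⊆ U}ᶜ = {T : SX Psi | (T.1 ∩ Uᶜ).Nonempty} := by
    ext T
    rw [mem_compl_iff, Set.mem_ofPred_eq, Set.mem_ofPred_eq, not_subset]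
    rfl
  rw [h]
  exact isOpen_meet hU.compl.isOpen

theorem isClopen_meet {U : Set Psi} (hU : IsClopen U) :
    IsClopen {T : SX Psi | (T.1 ∩ U).Nonempty} := by
  have h : {T : SX Psi | (T.1 ∩ U).Nonempty} = {T : SX Psi | T.1 ⊆ Uᶜ}ᶜ := by
    ext T
    rw [mem_compl_iff, Set.mem_ofPred_eq, Set.mem_ofPred_eq, not_subset]
    simp only [mem_compl_iff, not_not]
    rfl
  rw [h]
  exact (isClopen_sub hU.compl).compl

theorem isClopen_Cset (n : ℕ) (S : SX Psi) : IsClopen (Cset n S) := by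
  refine ((isClopen_sub (isClopen_Uset n S)).inter ?_).inter ?_
  · refine Set.Finite.isClopen_biInter ((Set.finite_Iio n).subset fun k hk => hk.1) fun k _ => ?_
    apply isClopen_meet
    have := isClopen_nat {k} (Set.finite_singleton k)
    rwa [image_singleton] at this
  · exact (structure_SX S).1.isClopen_biInter fun i _ => isClopen_meet (isClopen_V n i)

theorem mem_Cset_self {n₀ : ℕ} {S : SX Psi} (h : ∀ n ≥ n₀, S.1 ⊆ Uset n S.1) {n : ℕ}
    (hn : n₀ ≤ n) : S ∈ Cset n S := by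
  refine ⟨⟨h n hn, ?_⟩, ?_⟩
  · simp only [mem_iInter]
    intro k hk
    exact ⟨nat k, hk.2, rfl⟩
  · simp only [mem_iInter]
    intro i hi
    exact ⟨pt i, hi, pt_mem_V.2 rfl⟩

/-- every open set containing `S` contains `C_n(S)` for all large `n`. -/
theorem Cset_subset (S : SX Psi) {𝒪 : Set (SX Psi)} (h𝒪 : IsOpen 𝒪) (hS : S ∈ 𝒪) :
    ∃ n₀, ∀ n ≥ n₀, Cset n S ⊆ 𝒪 := by
  induction h𝒪 with
  | basic 𝒲 h𝒲 =>
    obtain ⟨𝒰, h𝒰fin, -, h𝒰open, rfl⟩ := h𝒲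
    -- for each `x ∈ S` and `U ∋ x` in `𝒰` a bound
    -- bound for branches
    have h1 : ∀ U ∈ 𝒰, ∀ i ∈ sset S.1, ∃ n₁, pt i ∈ U → V n₁ i ⊆ U := by
      intro U hU i _
      by_cases hi : pt i ∈ U
      · obtain ⟨N, hN⟩ := ((isOpen_iff _).1 (h𝒰open U hU) i hi).bddAbove
        refine ⟨N + 1, fun _ => ?_⟩
        rintro (k | j) hx
        · by_contra h
          obtain ⟨h2, h3⟩ := nat_mem_V.1 hx
          have : k ≤ N := hN ⟨h2, h⟩
          omega
        · rw [pt_mem_V] at hx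
          rw [hx]
          exact hi
      · exact ⟨0, fun h => absurd h hi⟩
    choose! f hf using h1
    -- a common bound
    obtain ⟨n₁, hn₁⟩ : ∃ n₁, ∀ U ∈ 𝒰, ∀ i ∈ sset S.1, f U i ≤ n₁ := by
      have hfin : (⋃ U ∈ 𝒰, f U '' sset S.1).Finite :=
        h𝒰fin.biUnion fun U _ => (structure_SX S).1.image _
      obtain ⟨n₁, hn₁⟩ := hfin.bddAbove
      exact ⟨n₁, fun U hU i hi => hn₁ (mem_iUnion₂.2 ⟨U, hU, i, hi, rfl⟩)⟩
    -- bound for witnesses in `ω`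
    have h2 : ∀ U ∈ 𝒰, ∃ n₂ : ℕ, (∃ i ∈ sset S.1, pt i ∈ U) ∨ ∃ k < n₂, nat k ∈ S.1 ∧ nat k ∈ U := by
      intro U hU
      obtain ⟨x, hxS, hxU⟩ := hS.2 U hU
      rcases x with k | i
      · exact ⟨k + 1, Or.inr ⟨k, Nat.lt_succ_self k, hxS, hxU⟩⟩
      · exact ⟨0, Or.inl ⟨i, hxS, hxU⟩⟩
    choose! g hg using h2
    obtain ⟨n₂, hn₂⟩ : ∃ n₂, ∀ U ∈ 𝒰, g U ≤ n₂ := by
      obtain ⟨n₂, hn₂⟩ := (h𝒰fin.image g).bddAbove
      exact ⟨n₂, fun U hU => hn₂ ⟨U, hU, rfl⟩⟩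
    refine ⟨max n₁ n₂, fun n hn T hT => ?_⟩
    obtain ⟨⟨hT1, hT2⟩, hT3⟩ := hT
    simp only [mem_iInter] at hT2 hT3
    have hn1 : n₁ ≤ n := (le_max_left _ _).trans hn
    have hn2 : n₂ ≤ n := (le_max_right _ _).trans hn
    constructor
    · intro x hx
      rcases hT1 hx with ⟨k, hk, rfl⟩ | h
      · exact hS.1 hk.2
      · obtain ⟨i, hi, hxi⟩ := mem_iUnion₂.1 h
        obtain ⟨U, hU, hiU⟩ := hS.1 hi
        refine ⟨U, hU, hf U hU i hi hiU (V_mono ?_ i hxi)⟩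
        exact (hn₁ U hU i hi).trans hn1
    · intro U hU
      rcases hg U hU with ⟨i, hi, hiU⟩ | ⟨k, hk, hkS, hkU⟩
      · obtain ⟨x, hxT, hxV⟩ := hT3 i hi
        exact ⟨x, hxT, hf U hU i hi hiU (V_mono ((hn₁ U hU i hi).trans hn1) i hxV)⟩
      · obtain ⟨x, hxT, hxk⟩ := hT2 k ⟨lt_of_lt_of_le hk ((hn₂ U hU).trans hn2), hkS⟩
        rw [mem_singleton_iff] at hxk
        subst hxk
        exact ⟨_, hxT, hkU⟩
  | univ => exact ⟨0, fun n _ => subset_univ _⟩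
  | inter 𝒪₁ 𝒪₂ _ _ ih1 ih2 =>
    obtain ⟨n₁, h1⟩ := ih1 hS.1
    obtain ⟨n₂, h2⟩ := ih2 hS.2
    exact ⟨max n₁ n₂, fun n hn => subset_inter (h1 n ((le_max_left _ _).trans hn))
      (h2 n ((le_max_right _ _).trans hn))⟩
  | sUnion 𝒮 _ ih =>
    obtain ⟨𝒪₁, h1, h2⟩ := hS
    obtain ⟨n₁, h3⟩ := ih 𝒪₁ h1 h2
    exact ⟨n₁, fun n hn => (h3 n hn).trans (subset_sUnion_of_mem h1)⟩

theorem t3 : T3Space (SX Psi) := by
  haveI hreg : RegularSpace (SX Psi) := by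
    refine RegularSpace.of_exists_mem_nhds_isClosed_subset fun S 𝒪 h𝒪 => ?_
    obtain ⟨𝒱, h𝒱𝒪, h𝒱, hS⟩ := mem_nhds_iff.1 h𝒪
    obtain ⟨n₀, hn₀⟩ := Cset_subset S h𝒱 hS
    obtain ⟨n₁, hn₁⟩ := exists_subset_Uset S
    refine ⟨Cset (max n₀ n₁) S, ?_, (isClopen_Cset _ S).isClosed,
      (hn₀ _ (le_max_left _ _)).trans h𝒱𝒪⟩
    exact (isClopen_Cset _ S).isOpen.mem_nhds (mem_Cset_self hn₁ (le_max_right _ _))
  haveI ht0 : T0Space (SX Psi) := by
    refine ⟨fun S T hST => ?_⟩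
    by_contra hne
    have hne' : S.1 ≠ T.1 := fun h => hne (Subtype.ext h)
    have key : ∀ S T : SX Psi, Inseparable S T → S.1 ⊆ T.1 := by
      intro S T h x hx
      by_contra hxT
      have h1 : IsOpen {R : SX Psi | R.1 ⊆ {x}ᶜ} := isOpen_sub isOpen_compl_singleton
      have h2 : T ∈ {R : SX Psi | R.1 ⊆ {x}ᶜ} := by
        intro y hy hyx
        rw [mem_singleton_iff] at hyx
        exact hxT (hyx ▸ hy)
      have h3 : S ∈ {R : SX Psi | R.1 ⊆ {x}ᶜ} := (h.mem_open_iff h1).2 h2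
      exact h3 hx rfl
    exact hne' (Subset.antisymm (key S T hST) (key T S hST.symm))
  exact {}

/-! ### The `σ`-locally finite network -/

/-- the members of the network -/
def Nset (n : ℕ) (B : Finset ℕ) (s : Set (ℕ → Bool)) : Set (SX Psi) :=
  {T | sset T.1 = s ∧ (∀ k < n, nat k ∈ T.1 ↔ k ∈ B) ∧ ∀ k ≥ n, nat k ∈ T.1 → ∃ i ∈ s, k ∈ br i}

/-- the family `𝒩_{n,B}` -/
def Nfam (p : ℕ × Finset ℕ) : Set (Set (SX Psi)) :=
  {P | ∃ s : Set (ℕ → Bool), s.Finite ∧ P = Nset p.1 p.2 s}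

theorem Nfam_locallyFinite (p : ℕ × Finset ℕ) :
    LocallyFinite (fun P : Nfam p => (P : Set (SX Psi))) := by
  intro S
  obtain ⟨n₀, hn₀⟩ := exists_subset_Uset S
  refine ⟨{T | T.1 ⊆ Uset n₀ S.1}, (isOpen_sub (isClopen_Uset n₀ S).isOpen).mem_nhds
    (hn₀ n₀ le_rfl), ?_⟩
  have hfin : ((fun s => Nset p.1 p.2 s) '' {s | s ⊆ sset S.1}).Finite :=
    ((structure_SX S).1.finite_subsets).image _
  refine Set.Finite.of_finite_image (f := fun P : Nfam p => (P : Set (SX Psi)))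
    (hfin.subset ?_) (fun a _ b _ h => Subtype.ext h)
  rintro _ ⟨P, ⟨T, hTP, hTU⟩, rfl⟩
  obtain ⟨s, hs, hP⟩ := P.2
  refine ⟨s, ?_, hP.symm⟩
  show s ⊆ sset S.1
  have hT : T ∈ Nset p.1 p.2 s := hP ▸ hTP
  intro i hi
  have h1 : pt i ∈ T.1 := by
    have : i ∈ sset T.1 := hT.1 ▸ hi
    exact this
  rcases hTU h1 with ⟨k, -, hk⟩ | h
  · cases hk
  · obtain ⟨j, hj, hij⟩ := mem_iUnion₂.1 h
    rw [pt_mem_V] at hij
    exact hij ▸ hj

theorem isSigmaSpace : IsSigmaSpace (SX Psi) := by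
  refine ⟨t3, ⋃ p : ℕ × Finset ℕ, Nfam p, ?_, ?_⟩
  · obtain ⟨e, he⟩ := exists_surjective_nat (ℕ × Finset ℕ)
    refine ⟨fun n => Nfam (e n), fun n => Nfam_locallyFinite _, ?_⟩
    exact (he.iUnion_comp Nfam).symm
  · intro S 𝒪 h𝒪 hS
    obtain ⟨n₀, hn₀⟩ := Cset_subset S h𝒪 hS
    obtain ⟨n₁, hn₁⟩ := exists_subset_Uset S
    set n := max n₀ n₁ with hn
    classical
    set B : Finset ℕ := (Finset.range n).filter fun k => nat k ∈ S.1 with hB
    refine ⟨Nset n B (sset S.1), mem_iUnion.2 ⟨(n, B), sset S.1, (structure_SX S).1, rfl⟩, ?_, ?_⟩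
    · refine ⟨rfl, fun k hk => ?_, fun k hk hkS => ?_⟩
      · rw [hB, Finset.mem_filter, Finset.mem_range]
        exact ⟨fun h => ⟨hk, h⟩, fun h => h.2⟩
      · rcases hn₁ n (le_max_right _ _) hkS with ⟨j, hj, hjk⟩ | h
        · cases hjk
          exact absurd hj.1 (not_lt.2 hk)
        · obtain ⟨i, hi, hki⟩ := mem_iUnion₂.1 h
          exact ⟨i, hi, (nat_mem_V.1 hki).1⟩
    · refine subset_trans ?_ (hn₀ n (le_max_left _ _))
      rintro T ⟨hT1, hT2, hT3⟩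
      refine ⟨⟨?_, ?_⟩, ?_⟩
      · rintro (k | i) hx
        · by_cases hk : k < n
          · left
            have := (hT2 k hk).1 hx
            rw [hB, Finset.mem_filter] at this
            exact ⟨k, ⟨hk, this.2⟩, rfl⟩
          · right
            obtain ⟨i, hi, hki⟩ := hT3 k (not_lt.1 hk) hx
            exact mem_iUnion₂.2 ⟨i, hi, nat_mem_V.2 ⟨hki, not_lt.1 hk⟩⟩
        · right
          have : i ∈ sset S.1 := hT1 ▸ hx
          exact mem_iUnion₂.2 ⟨i, this, pt_mem_V.2 rfl⟩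
      · simp only [mem_iInter]
        rintro k ⟨hk, hkS⟩
        refine ⟨nat k, (hT2 k hk).2 ?_, rfl⟩
        rw [hB, Finset.mem_filter, Finset.mem_range]
        exact ⟨hk, hkS⟩
      · simp only [mem_iInter]
        intro i hi
        have : i ∈ sset T.1 := hT1 ▸ hi
        exact ⟨pt i, this, pt_mem_V.2 rfl⟩

/-! ### No `σ`-locally finite `k`-network -/

/-- singletons as elements of `S(Ψ)` -/
def sing (x : Psi) : SX Psi :=
  ⟨{x}, singleton_nonempty x, isClosed_singleton, {{x}}, Set.finite_singleton _, by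
    rintro C rfl
    exact ⟨fun _ => x, x, tendsto_const_nhds, by simp⟩, by simp⟩

theorem continuous_sing : Continuous sing := by
  refine continuous_generateFrom_iff.2 ?_
  rintro _ ⟨𝒰, h𝒰fin, -, h𝒰, rfl⟩
  have h : sing ⁻¹' vbox 𝒰 = ⋃₀ 𝒰 ∩ ⋂ U ∈ 𝒰, U := by
    ext x
    simp [vbox, sing]
  rw [h]
  exact (isOpen_sUnion h𝒰).inter (h𝒰fin.isOpen_biInter h𝒰)

theorem not_isAlephSpace : ¬ IsAlephSpace (SX Psi) := by
  rintro ⟨-, 𝒢, ⟨𝒬, h𝒬, h𝒢⟩, hk⟩
  -- for each branch an element of the `k`-network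
  have h1 : ∀ i : ℕ → Bool, ∃ P ∈ 𝒢, P ⊆ {T : SX Psi | T.1 ⊆ V 0 i} ∧
      {k | k ∈ br i ∧ sing (nat k) ∈ P}.Infinite := by
    intro i
    obtain ⟨ℛ, hℛ, hfin, hcov, hsub⟩ := hk (sing '' V 0 i) {T : SX Psi | T.1 ⊆ V 0 i}
      ((isCompact_V 0 i).image continuous_sing) (isOpen_sub (isClopen_V 0 i).isOpen) (by
        rintro _ ⟨x, hx, rfl⟩
        show ({x} : Set Psi) ⊆ V 0 i
        rwa [singleton_subset_iff])
    by_contra hcon
    push Not at hcon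
    have h2 : (⋃ P ∈ ℛ, {k | k ∈ br i ∧ sing (nat k) ∈ P}).Finite := by
      refine hfin.biUnion fun P hP => ?_
      have := hcon P (hℛ hP) ((subset_sUnion_of_mem hP).trans hsub)
      exact this
    refine br_infinite i (h2.subset fun k hk => ?_)
    have h3 : sing (nat k) ∈ ⋃₀ ℛ := hcov ⟨nat k, nat_mem_V.2 ⟨hk, Nat.zero_le _⟩, rfl⟩
    obtain ⟨P, hP, hkP⟩ := h3
    exact mem_iUnion₂.2 ⟨P, hP, hk, hkP⟩
  choose P hP𝒢 hPsub hPinf using h1
  have h2 : ∀ i, ∃ n k, P i ∈ 𝒬 n ∧ sing (nat k) ∈ P i := by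
    intro i
    have h3 : P i ∈ ⋃ n, 𝒬 n := h𝒢 ▸ hP𝒢 i
    obtain ⟨n, hn⟩ := mem_iUnion.1 h3
    obtain ⟨k, hk⟩ := (hPinf i).nonempty
    exact ⟨n, k, hn, hk.2⟩
  choose n k hn hk' using h2
  have hinj : Function.Injective P := by
    intro i j hij
    by_contra hne
    refine hPinf i ((br_ad hne).subset fun m hm => ⟨hm.1, ?_⟩)
    have h3 : sing (nat m) ∈ P j := hij ▸ hm.2
    have h4 : ({nat m} : Set Psi) ⊆ V 0 j := hPsub j h3
    exact (nat_mem_V.1 (h4 rfl)).1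
  -- the fibres of `(n, k)` are finite, hence there are only countably many branches
  have hcount : (univ : Set (ℕ → Bool)).Countable := by
    have h3 : (univ : Set (ℕ → Bool)) = ⋃ p : ℕ × ℕ, {i | n i = p.1 ∧ k i = p.2} := by
      ext i
      simp
    rw [h3]
    refine countable_iUnion fun p => Set.Finite.countable ?_
    have hlf := (h𝒬 p.1).point_finite (sing (nat p.2))
    have h4 : (P '' {i | n i = p.1 ∧ k i = p.2}).Finite := by
      refine (hlf.image (fun Q : 𝒬 p.1 => (Q : Set (SX Psi)))).subset ?_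
      rintro _ ⟨i, ⟨hi1, hi2⟩, rfl⟩
      have h5 : P i ∈ 𝒬 p.1 := hi1 ▸ hn i
      refine ⟨⟨P i, h5⟩, ?_, rfl⟩
      show sing (nat p.2) ∈ P i
      rw [← hi2]
      exact hk' i
    exact Set.Finite.of_finite_image h4 hinj.injOn
  have hunc : ¬ (univ : Set (ℕ → Bool)).Countable := by
    rw [Set.countable_univ_iff, ← Cardinal.mk_le_aleph0_iff]
    simp [Cardinal.aleph0_lt_continuum]
  exact hunc hcount

/-- **MP_81fb9f_gt (negated form).** There is a Hausdorff space `X` such that `S(X)` is a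
`σ`-space but not an `ℵ`-space. -/
theorem result : ∃ (X : Type) (_ : TopologicalSpace X), T2Space X ∧
    IsSigmaSpace (SX X) ∧ ¬ IsAlephSpace (SX X) :=
  ⟨Psi, inferInstance, inferInstance, isSigmaSpace, not_isAlephSpace⟩

end Pool.Agent.Results.MP_81fb9f_gt.SigmaNotAleph
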